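import Pool.Agent.W217.BE.Stm

/-!
Part DESC of project BE: descent of the Betti number bounds from the localisation at a prime.
-/

set_option autoImplicit false

namespace Pool.Agent.W664.BEDESC

open Pool.Agent.W217.BE

variable {A : Type} [CommRing A] (p : Ideal A) [p.IsPrime]

theorem chi_ne (s : p.primeCompl) : chi p (s : A) ≠ 0 := by
  have h : IsUnit (algebraMap A (Localization.AtPrime p) s) :=
    IsLocalization.map_units (Localization.AtPrime p) s
  exact (h.map (IsLocalRing.residue (Localization.AtPrime p))).ne_zero

theorem res_mk' (a : A) (t : p.primeCompl) :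
    IsLocalRing.residue (Localization.AtPrime p)
      (IsLocalization.mk' (Localization.AtPrime p) a t) = (chi p (t : A))⁻¹ * chi p a := by
  have h : IsLocalRing.residue (Localization.AtPrime p)
      (IsLocalization.mk' (Localization.AtPrime p) a t) * chi p (t : A) = chi p a := by
    unfold chi
    rw [RingHom.comp_apply, RingHom.comp_apply, ← map_mul, IsLocalization.mk'_spec]
  have hn := chi_ne p t
  field_simp
  exact h

/-- Extension of a semilinear functional to the localised module. -/
theorem ext {P : Type} [AddCommGroup P] [Module A P]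
    (L : P →+ IsLocalRing.ResidueField (Localization.AtPrime p)) (hL : IsF (chi p) L) :
    ∃ L' : LocalizedModule p.primeCompl P →+ IsLocalRing.ResidueField (Localization.AtPrime p),
      IsF (IsLocalRing.residue (Localization.AtPrime p)) L' ∧
        ∀ x s, L' (LocalizedModule.mk x s) = (chi p (s : A))⁻¹ * L x := by
  have wd : ∀ q q' : P × p.primeCompl, q ≈ q' →
      (chi p (q.2 : A))⁻¹ * L q.1 = (chi p (q'.2 : A))⁻¹ * L q'.1 := by
    rintro ⟨x, s⟩ ⟨y, t⟩ h
    obtain ⟨u, hu⟩ := h
    have h1 := congrArg L hu
    simp only [Submonoid.smul_def] at h1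
    rw [hL, hL, hL, hL] at h1
    have h2 := mul_left_cancel₀ (chi_ne p u) h1
    have hs := chi_ne p s
    have ht := chi_ne p t
    simp only
    field_simp
    linear_combination h2
  have hmk : ∀ (x : P) (s : p.primeCompl),
      (LocalizedModule.mk x s : LocalizedModule p.primeCompl P).liftOn
        (fun q => (chi p (q.2 : A))⁻¹ * L q.1) wd = (chi p (s : A))⁻¹ * L x := fun x s =>
    LocalizedModule.liftOn_mk wd x s
  let L' : LocalizedModule p.primeCompl P →+
      IsLocalRing.ResidueField (Localization.AtPrime p) :=
    { toFun := fun z => z.liftOn (fun q => (chi p (q.2 : A))⁻¹ * L q.1) wd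
      map_zero' := by
        rw [← LocalizedModule.zero_mk (1 : p.primeCompl), hmk, map_zero, mul_zero]
      map_add' := by
        intro z w
        induction z using LocalizedModule.induction_on with
        | _ x s =>
        induction w using LocalizedModule.induction_on with
        | _ y t =>
        rw [LocalizedModule.mk_add_mk, hmk, hmk, hmk]
        have hs := chi_ne p s
        have ht := chi_ne p t
        simp only [Submonoid.smul_def, map_add]
        rw [hL, hL, Submonoid.coe_mul, map_mul]
        field_simp }
  refine ⟨L', ?_, hmk⟩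
  intro b z
  induction z using LocalizedModule.induction_on with
  | _ x s =>
  obtain ⟨a, t, rfl⟩ := IsLocalization.exists_mk'_eq p.primeCompl b
  rw [← Localization.mk_eq_mk', LocalizedModule.mk_smul_mk, Localization.mk_eq_mk']
  change (LocalizedModule.mk (a • x) (t * s) : LocalizedModule p.primeCompl P).liftOn
        (fun q => (chi p (q.2 : A))⁻¹ * L q.1) wd = _ *
      (LocalizedModule.mk x s : LocalizedModule p.primeCompl P).liftOn
        (fun q => (chi p (q.2 : A))⁻¹ * L q.1) wd
  rw [hmk, hmk, res_mk', hL, Submonoid.coe_mul, map_mul, mul_inv]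
  ring

theorem main : DESC := by
  intro A _ p _ N _ _ b H P _ _ _ d ε hres i
  obtain ⟨hε, h0, hd⟩ := hres
  -- the localised resolution
  let P' : ℕ → Type := fun i => LocalizedModule p.primeCompl (P i)
  let d' : ∀ i, P' (i + 1) →ₗ[Localization.AtPrime p] P' i :=
    fun i => LocalizedModule.map p.primeCompl (d i)
  let ε' : P' 0 →ₗ[Localization.AtPrime p] LocalizedModule p.primeCompl N :=
    LocalizedModule.map p.primeCompl ε
  have hε' : Function.Surjective ε' := LocalizedModule.map_surjective p.primeCompl ε hε
  have e0 : Function.Exact (d' 0) ε' := 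
    LocalizedModule.map_exact p.primeCompl (d 0) ε (LinearMap.exact_iff.mpr h0.symm)
  have ed : ∀ i, Function.Exact (d' (i + 1)) (d' i) := fun i =>
    LocalizedModule.map_exact p.primeCompl (d (i + 1)) (d i) (LinearMap.exact_iff.mpr (hd i).symm)
  have hr : IsRes d' ε' :=
    ⟨hε', (LinearMap.exact_iff.mp e0).symm, fun i => (LinearMap.exact_iff.mp (ed i)).symm⟩
  obtain ⟨z, l, hz, hl, hld, hlz⟩ := H P' d' ε' hr i
  have hex : ∀ k, ∃ q : P i × p.primeCompl, z k = LocalizedModule.mk q.1 q.2 := by
    intro k
    generalize z k = w
    induction w using LocalizedModule.induction_on with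
    | _ x s => exact ⟨(x, s), rfl⟩
  choose q hq using hex
  have hdmk : ∀ i x s, d' i (LocalizedModule.mk x s) = LocalizedModule.mk (d i x) s :=
    fun i x s => LocalizedModule.map_mk p.primeCompl (d i) x s
  refine ⟨fun k => (q k).1, fun k =>
    (AddMonoidHom.mulLeft (chi p ((q k).2 : A))⁻¹).comp
      ((l k).comp (LocalizedModule.mkLinearMap p.primeCompl (P i)).toAddMonoidHom),
    ?_, ?_, ?_, ?_⟩
  · intro j
    have h := hz j
    cases i with
    | zero => trivial
    | succ k =>
      intro L hL
      obtain ⟨L', hL', hm⟩ := ext p L hL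
      have h1 := h L' hL'
      rw [hq j, hdmk, hm] at h1
      exact (mul_eq_zero.mp h1).resolve_left (inv_ne_zero (chi_ne p _))
  · intro j s x
    have h := hl j (Localization.mk s 1) (LocalizedModule.mk x 1)
    rw [LocalizedModule.mk_smul_mk, mul_one, Localization.mk_one_eq_algebraMap] at h
    change _ * l j (LocalizedModule.mk (s • x) 1) = _ * (_ * l j (LocalizedModule.mk x 1))
    rw [h]
    change _ * (chi p s * _) = _
    ring
  · intro j x
    have h := hld j (LocalizedModule.mk x 1)
    rw [hdmk] at h
    change _ * l j (LocalizedModule.mk (d i x) 1) = 0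
    rw [h, mul_zero]
  · intro j k
    change (chi p ((q j).2 : A))⁻¹ * l j (LocalizedModule.mk (q k).1 1) = _
    have h := hl j (Localization.mk ((q k).2 : A) 1) (LocalizedModule.mk (q k).1 (q k).2)
    rw [LocalizedModule.mk_smul_mk, one_mul, Localization.mk_one_eq_algebraMap, ← hq k,
      hlz j k, ← Submonoid.smul_def, LocalizedModule.mk_cancel] at h
    rw [h]
    change _ * (chi p ((q k).2 : A) * _) = _
    by_cases hjk : j = k
    · subst hjk
      rw [if_pos rfl, mul_one, inv_mul_cancel₀ (chi_ne p _)]
    · rw [if_neg hjk, mul_zero, mul_zero]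

end Pool.Agent.W664.BEDESC
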