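import Pool.Agent.W217.BE.Stm3

/-!
Part REGRES of project BE: minimal resolutions over a regular local ring of dimension d stop in
degree d, and reach degree d when the socle is nonzero (reduction modulo a regular parameter).
-/

set_option autoImplicit false

namespace Pool.Agent.W664.BEREGRES
open Pool.Agent.W217.BE

variable {B : Type} [CommRing B] (x : B)

/-- reduction of vectors -/
def red (n : ℕ) (v : Fin n → B) : Fin n → B ⧸ Ideal.span {x} :=
  fun j => Ideal.Quotient.mk (Ideal.span {x}) (v j)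

theorem red_surj (n : ℕ) : Function.Surjective (red x n) := by
  intro u
  choose v hv using fun j => Ideal.Quotient.mk_surjective (u j)
  exact ⟨v, funext hv⟩

theorem red_eq (n : ℕ) (v w : Fin n → B) : red x n v = red x n w ↔ ∃ t, v = w + x • t := by
  constructor
  · intro h
    have h1 : ∀ j, ∃ t, v j = w j + x * t := by
      intro j
      have h2 := congrFun h j
      unfold red at h2
      rw [Ideal.Quotient.eq, Ideal.mem_span_singleton'] at h2
      obtain ⟨t, ht⟩ := h2
      exact ⟨t, by linear_combination -ht⟩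
    choose t ht using h1
    exact ⟨t, funext fun j => by simpa using ht j⟩
  · rintro ⟨t, rfl⟩
    funext j
    unfold red
    rw [Ideal.Quotient.eq, Ideal.mem_span_singleton']
    exact ⟨t j, by simp [mul_comm]⟩

theorem red_add (n : ℕ) (v w : Fin n → B) : red x n (v + w) = red x n v + red x n w := by
  funext j; simp [red]

theorem red_smul (n : ℕ) (b : B) (v : Fin n → B) :
    red x n (b • v) = Ideal.Quotient.mk (Ideal.span {x}) b • red x n v := by
  funext j; simp [red]

/-- reduction of a map -/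
noncomputable def rmap {m n : ℕ} (f : (Fin m → B) →ₗ[B] (Fin n → B)) :
    (Fin m → B ⧸ Ideal.span {x}) →ₗ[B ⧸ Ideal.span {x}] (Fin n → B ⧸ Ideal.span {x}) :=
  Matrix.mulVecLin ((LinearMap.toMatrix' f).map (Ideal.Quotient.mk (Ideal.span {x})))

theorem rmap_red {m n : ℕ} (f : (Fin m → B) →ₗ[B] (Fin n → B)) (v : Fin m → B) :
    rmap x f (red x m v) = red x n (f v) := by
  have h : f v = (LinearMap.toMatrix' f).mulVec v := by
    rw [← Matrix.toLin'_apply, Matrix.toLin'_toMatrix']
  funext j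
  unfold rmap
  rw [Matrix.mulVecLin_apply]
  unfold red
  rw [h]
  exact (RingHom.map_mulVec (Ideal.Quotient.mk (Ideal.span {x})) _ v j).symm

theorem mem_max [IsLocalRing B] [IsLocalRing (B ⧸ Ideal.span {x})]
    (hx : x ∈ IsLocalRing.maximalIdeal B) (y : B) :
    Ideal.Quotient.mk (Ideal.span {x}) y ∈ IsLocalRing.maximalIdeal (B ⧸ Ideal.span {x}) ↔
      y ∈ IsLocalRing.maximalIdeal B := by
  constructor
  · intro h
    by_contra hy
    rw [IsLocalRing.mem_maximalIdeal, mem_nonunits_iff, not_not] at hy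
    exact (IsLocalRing.mem_maximalIdeal _ ).mp h (hy.map _)
  · intro h
    rw [IsLocalRing.mem_maximalIdeal, mem_nonunits_iff]
    intro hu
    obtain ⟨z, hz⟩ := isUnit_iff_exists_inv.mp hu
    obtain ⟨z, rfl⟩ := Ideal.Quotient.mk_surjective z
    rw [← map_mul, ← map_one (Ideal.Quotient.mk (Ideal.span {x})), Ideal.Quotient.eq] at hz
    have h1 : Ideal.span {x} ≤ IsLocalRing.maximalIdeal B := by
      rw [Ideal.span_le]
      simpa using hx
    have h2 := h1 hz
    have h3 : y * z ∈ IsLocalRing.maximalIdeal B := Ideal.mul_mem_right _ _ h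
    have h4 : (1 : B) ∈ IsLocalRing.maximalIdeal B := by
      have := Ideal.sub_mem _ h3 h2
      simpa using this
    exact (Ideal.ne_top_iff_one _).mp (IsLocalRing.maximalIdeal.isMaximal B).ne_top h4

variable {N : Type} [AddCommGroup N] [Module B N] (r : ℕ → ℕ)
  (d : ∀ i, (Fin (r (i + 1)) → B) →ₗ[B] (Fin (r i) → B)) (ε : (Fin (r 0) → B) →ₗ[B] N)

theorem step (hx : ∀ b : B, x * b = 0 → b = 0)
    (h : IsRes (P := fun i => Fin (r i) → B) d ε) :
    IsRes (S := B ⧸ Ideal.span {x})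
      (M := (Fin (r 1) → B ⧸ Ideal.span {x}) ⧸ LinearMap.range (rmap x (d 1)))
      (P := fun i => Fin (r (i + 1)) → B ⧸ Ideal.span {x})
      (fun i => rmap x (d (i + 1))) (Submodule.mkQ _) := by
  obtain ⟨hε, h0, hd⟩ := h
  have hreg : ∀ (n : ℕ) (v : Fin n → B), x • v = 0 → v = 0 := by
    intro n v hv
    funext j
    exact hx _ (congrFun hv j)
  have hdd : ∀ i v, d i (d (i + 1) v) = 0 := by
    intro i v
    have : d (i + 1) v ∈ LinearMap.ker (d i) := by
      rw [← hd i]
      exact ⟨v, rfl⟩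
    exact this
  refine ⟨Submodule.mkQ_surjective _, (Submodule.ker_mkQ _).symm, ?_⟩
  intro i
  apply le_antisymm
  · rintro _ ⟨u, rfl⟩
    obtain ⟨v, rfl⟩ := red_surj x _ u
    rw [LinearMap.mem_ker]
    simp only
    rw [rmap_red, rmap_red, hdd]
    funext j
    simp [red]
  · intro u hu
    obtain ⟨v, rfl⟩ := red_surj x _ u
    rw [LinearMap.mem_ker] at hu
    simp only at hu
    rw [rmap_red] at hu
    have h1 : red x _ (d (i + 1) v) = red x _ 0 := by
      rw [hu]; funext j; simp [red]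
    obtain ⟨w, hw⟩ := (red_eq x _ _ _).mp h1
    rw [zero_add] at hw
    have h2 : d i w = 0 := by
      apply hreg
      rw [← map_smul, ← hw, hdd]
    have h3 : w ∈ LinearMap.range (d (i + 1)) := by
      rw [hd i]; exact h2
    obtain ⟨w', hw'⟩ := h3
    have h4 : v - x • w' ∈ LinearMap.ker (d (i + 1)) := by
      rw [LinearMap.mem_ker, map_sub, map_smul, hw, hw', sub_self]
    rw [← hd (i + 1)] at h4
    obtain ⟨t, ht⟩ := h4
    refine ⟨red x _ t, ?_⟩
    simp only
    rw [rmap_red, ht, red_eq]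
    exact ⟨-w', by rw [smul_neg, sub_eq_add_neg]⟩

theorem socle [IsLocalRing B] [IsLocalRing (B ⧸ Ideal.span {x})]
    (hx : ∀ b : B, x * b = 0 → b = 0) (hxm : x ∈ IsLocalRing.maximalIdeal B)
    (h : IsRes (P := fun i => Fin (r i) → B) d ε) (w : N) (hw : w ≠ 0)
    (hk : ∀ y ∈ IsLocalRing.maximalIdeal B, y • w = 0) :
    ∃ w' : (Fin (r 1) → B ⧸ Ideal.span {x}) ⧸ LinearMap.range (rmap x (d 1)), w' ≠ 0 ∧
      ∀ y ∈ IsLocalRing.maximalIdeal (B ⧸ Ideal.span {x}), y • w' = 0 := by
  obtain ⟨hε, h0, hd⟩ := h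
  have hreg : ∀ (n : ℕ) (v : Fin n → B), x • v = 0 → v = 0 := by
    intro n v hv
    funext j
    exact hx _ (congrFun hv j)
  have hdd : ∀ i v, d i (d (i + 1) v) = 0 := by
    intro i v
    have : d (i + 1) v ∈ LinearMap.ker (d i) := by
      rw [← hd i]
      exact ⟨v, rfl⟩
    exact this
  obtain ⟨f, rfl⟩ := hε w
  have hZ : ∀ y ∈ IsLocalRing.maximalIdeal B, ∃ g, d 0 g = y • f := by
    intro y hy
    have : y • f ∈ LinearMap.ker ε := by
      rw [LinearMap.mem_ker, map_smul, hk y hy]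
    rw [← h0] at this
    exact this
  obtain ⟨g, hg⟩ := hZ x hxm
  refine ⟨Submodule.mkQ _ (red x _ g), ?_, ?_⟩
  · intro h1
    rw [Submodule.mkQ_apply, Submodule.Quotient.mk_eq_zero] at h1
    obtain ⟨u, hu⟩ := h1
    obtain ⟨t, rfl⟩ := red_surj x _ u
    rw [rmap_red] at hu
    obtain ⟨g', hg'⟩ := (red_eq x _ _ _).mp hu.symm
    have h2 : x • (f - d 0 g') = 0 := by
      rw [smul_sub, ← hg, hg', map_add, hdd, zero_add, map_smul, sub_self]
    have h3 := hreg _ _ h2
    have h4 : f ∈ LinearMap.ker ε := by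
      rw [← h0]
      exact ⟨g', (sub_eq_zero.mp h3).symm⟩
    exact hw h4
  · intro y hy
    obtain ⟨y, rfl⟩ := Ideal.Quotient.mk_surjective y
    rw [mem_max x hxm] at hy
    rw [← map_smul, ← red_smul, Submodule.mkQ_apply, Submodule.Quotient.mk_eq_zero]
    obtain ⟨g'', hg''⟩ := hZ y hy
    have h5 : y • g - x • g'' ∈ LinearMap.ker (d 0) := by
      rw [LinearMap.mem_ker, map_sub, map_smul, map_smul, hg, hg'', smul_comm, sub_self]
    rw [← hd 0] at h5
    obtain ⟨t, ht⟩ := h5
    refine ⟨red x _ t, ?_⟩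
    rw [rmap_red, ht, red_eq]
    exact ⟨-g'', by rw [smul_neg, sub_eq_add_neg]⟩

theorem max_bot (B : Type) [CommRing B] [IsRegularLocalRing B]
    (h : (IsLocalRing.maximalIdeal B).height = 0) : IsLocalRing.maximalIdeal B = ⊥ := by
  have h1 : ((IsLocalRing.maximalIdeal B).spanFinrank : WithBot ℕ∞) = ringKrullDim B :=
    IsRegularLocalRing.spanFinrank_maximalIdeal
  rw [← IsLocalRing.maximalIdeal_height_eq_ringKrullDim, h] at h1
  have h2 : (IsLocalRing.maximalIdeal B).spanFinrank = 0 := by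
    exact_mod_cast h1
  exact (Submodule.spanFinrank_eq_zero_iff_eq_bot (IsNoetherian.noetherian _)).mp h2

theorem base (B : Type) [CommRing B] [IsLocalRing B] {N : Type} [AddCommGroup N] [Module B N]
    (r : ℕ → ℕ) (d : ∀ i, (Fin (r (i + 1)) → B) →ₗ[B] (Fin (r i) → B))
    (ε : (Fin (r 0) → B) →ₗ[B] N) (hm : IsLocalRing.maximalIdeal B = ⊥)
    (h : IsRes (P := fun i => Fin (r i) → B) d ε)
    (hmin : ∀ i v j, d i v j ∈ IsLocalRing.maximalIdeal B) :
    (∀ i, 0 < i → r i = 0) ∧ ∀ w : N, w ≠ 0 → r 0 ≠ 0 := by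
  obtain ⟨hε, h0, hd⟩ := h
  have hz : ∀ i, d i = 0 := by
    intro i
    refine LinearMap.ext fun v => funext fun j => ?_
    have := hmin i v j
    rw [hm, Ideal.mem_bot] at this
    simpa using this
  constructor
  · intro i hi
    obtain ⟨i, rfl⟩ : ∃ k, i = k + 1 := ⟨i - 1, by omega⟩
    have h1 := hd i
    rw [hz i, hz (i + 1), LinearMap.range_zero, LinearMap.ker_zero] at h1
    by_contra hne
    have : Nonempty (Fin (r (i + 1))) := ⟨⟨0, by omega⟩⟩
    exact bot_ne_top h1
  · intro w hw hr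
    obtain ⟨f, rfl⟩ := hε w
    have : IsEmpty (Fin (r 0)) := by rw [hr]; infer_instance
    apply hw
    rw [Subsingleton.elim f 0, map_zero]

theorem aux (hQ : REGQ) (n : ℕ) : ∀ (B : Type) [CommRing B] [IsRegularLocalRing B] (N : Type)
    [AddCommGroup N] [Module B N]
    (r : ℕ → ℕ) (d : ∀ i, (Fin (r (i + 1)) → B) →ₗ[B] (Fin (r i) → B))
    (ε : (Fin (r 0) → B) →ₗ[B] N), (IsLocalRing.maximalIdeal B).height = (n : ℕ∞) →
    IsRes (P := fun i => Fin (r i) → B) d ε →
    (∀ i v j, d i v j ∈ IsLocalRing.maximalIdeal B) →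
    (∀ i, n < i → r i = 0) ∧ ∀ w : N, w ≠ 0 →
      (∀ y ∈ IsLocalRing.maximalIdeal B, y • w = 0) → r n ≠ 0 := by
  induction n with
  | zero =>
    intro B _ _ N _ _ r d ε hh hres hmin
    have hb := base B r d ε (max_bot B (by simpa using hh)) hres hmin
    exact ⟨hb.1, fun w hw _ => hb.2 w hw⟩
  | succ n ih =>
    intro B _ _ N _ _ r d ε hh hres hmin
    obtain ⟨x, hxm, hx, hreg, hht⟩ := hQ B n hh
    have hmin' : ∀ i v j, rmap x (d (i + 1)) v j ∈
        IsLocalRing.maximalIdeal (B ⧸ Ideal.span {x}) := by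
      intro i v j
      obtain ⟨v, rfl⟩ := red_surj x _ v
      rw [rmap_red]
      exact (mem_max x hxm _).mpr (hmin (i + 1) v j)
    have h := ih (B ⧸ Ideal.span {x})
      ((Fin (r 1) → B ⧸ Ideal.span {x}) ⧸ LinearMap.range (rmap x (d 1)))
      (fun i => r (i + 1)) (fun i => rmap x (d (i + 1))) (Submodule.mkQ _) hht
      (step x r d ε hx hres) hmin'
    constructor
    · intro i hi
      obtain ⟨i, rfl⟩ : ∃ k, i = k + 1 := ⟨i - 1, by omega⟩
      exact h.1 i (by omega)
    · intro w hw hk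
      obtain ⟨w', hw', hk'⟩ := socle x r d ε hx hxm hres w hw hk
      exact h.2 w' hw' hk'

theorem main : REGQ → REGRES := by
  intro hQ d B _ _ hh N _ _ r dX ε hres hmin
  have h := aux hQ d B N r dX ε hh hres hmin
  exact ⟨h.1, fun ⟨w, hw, hk⟩ => h.2 w hw hk⟩

end Pool.Agent.W664.BEREGRES
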